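import Pool.Agent.Helper57.SJ.Stmts

/-! Row AP of the sheet `Pool.Agent.Helper57.SJ.Stmts` (from GD2, GW, TLT). -/

set_option autoImplicit false

namespace Pool.Agent.Helper76.SJ

open MeasureTheory Set Filter Topology
open Pool.Agent.Helper57.SJ
open Pool.Agent.Helper57.QZ (Pr tor circ aa Zy Wy Sy Vy Ky pt lin Good zA Pz)

theorem st_AP (hGD2 : Pool.Agent.Helper57.QZ.ST_GD2) (hGW : ST_GW) (hTLT : ST_TLT) : ST_AP := by
  intro η hη
  have hε : (1 / 4 : ℝ) ∈ Ioo (0 : ℝ) (1 / 2) := ⟨by norm_num, by norm_num⟩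
  obtain ⟨C, A1, hC, hA1, hGD⟩ := hGD2 (1 / 4) hε
  obtain ⟨A2, hA2, hTL⟩ := hTLT (1 / 4) hε C (η / 2) hC (by linarith [hη.1])
  obtain ⟨c1, hc1, hW⟩ := hGW (1 / 4) hε
  obtain ⟨c2, hc2, hTL⟩ := hTL (max A1 A2) (le_max_right _ _)
  refine ⟨max A1 A2, hA1.trans (le_max_left _ _), min c1 c2,
    ⟨lt_min hc1.1 hc2.1, (min_le_left _ _).trans_lt hc1.2⟩, fun κ hκ => ?_⟩
  obtain ⟨T1, hT1, hW⟩ := hW (κ / 3) (by positivity)
  obtain ⟨T2, hT2, hGD⟩ := hGD (max A1 A2) (le_max_left _ _) (η / 2) (by linarith [hη.1])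
  obtain ⟨T3, hT3, hTL⟩ := hTL (κ / 3) (by positivity)
  refine ⟨max T1 (max T2 T3), hT1.trans (le_max_left _ _), fun T hT H hH1 hH => ?_⟩
  have b1 : T1 ≤ T := (le_max_left _ _).trans hT
  have b2 : T2 ≤ T := ((le_max_left _ _).trans (le_max_right _ _)).trans hT
  have b3 : T3 ≤ T := ((le_max_right _ _).trans (le_max_right _ _)).trans hT
  have hT1' : 1 ≤ T := by linarith
  have k1 : H ≤ T ^ c1 := hH.trans (Real.rpow_le_rpow_of_exponent_le hT1' (min_le_left _ _))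
  have k2 : H ≤ T ^ c2 := hH.trans (Real.rpow_le_rpow_of_exponent_le hT1' (min_le_right _ _))
  obtain ⟨E1, hE1s, hE1v, hE1g⟩ := hW T b1 H hH1 k1
  obtain ⟨a, b, hab, hG⟩ := hGD T b2 1 ⟨by norm_num, le_rfl⟩
  obtain ⟨E2, hE2s, hE2v, hE2g⟩ := hTL T b3 H hH1 k2 a (fun p hp => (hab p hp).1)
  obtain ⟨E3, hE3s, hE3v, hE3g⟩ := hTL T b3 H hH1 k2 b (fun p hp => (hab p hp).2)
  refine ⟨E1 ∪ (E2 ∪ E3), union_subset hE1s (union_subset hE2s hE3s), ?_, ?_⟩
  · refine (measureReal_union_le _ _).trans ?_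
    refine (add_le_add hE1v (measureReal_union_le _ _)).trans ?_
    refine (add_le_add le_rfl (add_le_add hE2v hE3v)).trans (le_of_eq (by ring))
  · intro u hu hE t ht
    simp only [mem_union, not_or] at hE
    obtain ⟨n1, n2, n3⟩ := hE
    obtain ⟨w1, w2, w3⟩ := hE1g u hu n1
    have htT : t ∈ Icc T (2 * T) := ⟨by linarith [ht.1], by linarith [ht.2]⟩
    obtain ⟨g0, g1, g2⟩ := hG t htT (w3 t ht)
    have m2 := hE2g u hu n2 t ht
    have m3 := hE3g u hu n3 t ht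
    refine ⟨g0, ?_, ?_⟩
    · have r1 := Complex.abs_re_le_norm
        (∑ p ∈ Pz (zA (max A1 A2) T), b p * Complex.exp (-((t * Real.log p : ℝ) * Complex.I)))
      rw [abs_le] at g2 r1 ⊢
      constructor <;> linarith [g2.1, g2.2, r1.1, r1.2]
    · have r2 := norm_add_le
        (deriv riemannZeta (pt 1 t) / riemannZeta (pt 1 t) -
          Wy (zA (max A1 A2) T) 1 (lin (zA (max A1 A2) T) t) -
          ∑ p ∈ Pz (zA (max A1 A2) T), a p * Complex.exp (-((t * Real.log p : ℝ) * Complex.I)))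
        (∑ p ∈ Pz (zA (max A1 A2) T), a p * Complex.exp (-((t * Real.log p : ℝ) * Complex.I)))
      rw [sub_add_cancel] at r2
      linarith

end Pool.Agent.Helper76.SJ
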